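import Mathlib

/-!
The Schur test on `l2`, and row and column sums of the derivative in weighted Legendre bases.
-/

namespace Pool.Agent.P.MP_f981b0_an.IS6
open Finset

variable {ι κ : Type*}

lemma sq_summable (x : lp (fun _ : κ => ℂ) 2) : Summable fun j => ‖x j‖ ^ 2 := by
  simpa using (lp.memℓp x).summable (by norm_num)

lemma tsum_sq (x : lp (fun _ : κ => ℂ) 2) : ∑' j, ‖x j‖ ^ 2 = ‖x‖ ^ 2 := by
  simpa using (lp.norm_rpow_eq_tsum (by norm_num) x).symm

lemma row_summable {b : κ → ℂ} {α : ℝ} (hb : ∀ s : Finset κ, ∑ j ∈ s, ‖b j‖ ≤ α)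
    (x : lp (fun _ : κ => ℂ) 2) : Summable fun j => ‖b j * x j‖ := by
  have h := (summable_of_sum_le (fun j => norm_nonneg (b j)) hb).mul_right ‖x‖
  refine h.of_nonneg_of_le (fun j => norm_nonneg _) fun j => ?_
  rw [norm_mul]
  exact mul_le_mul_of_nonneg_left (lp.norm_apply_le_norm (by norm_num) x j) (norm_nonneg _)

lemma row_summable2 {b : κ → ℂ} {α : ℝ} (hb : ∀ s : Finset κ, ∑ j ∈ s, ‖b j‖ ≤ α)
    (x : lp (fun _ : κ => ℂ) 2) : Summable fun j => ‖b j‖ * ‖x j‖ ^ 2 := by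
  have h := (summable_of_sum_le (fun j => norm_nonneg (b j)) hb).mul_right (‖x‖ ^ 2)
  refine h.of_nonneg_of_le (fun j => by positivity) fun j => ?_
  exact mul_le_mul_of_nonneg_left
    (pow_le_pow_left₀ (norm_nonneg _) (lp.norm_apply_le_norm (by norm_num) x j) 2) (norm_nonneg _)

lemma row_sq {b : κ → ℂ} {α : ℝ} (hb : ∀ s : Finset κ, ∑ j ∈ s, ‖b j‖ ≤ α)
    (x : lp (fun _ : κ => ℂ) 2) : ‖∑' j, b j * x j‖ ^ 2 ≤ α * ∑' j, ‖b j‖ * ‖x j‖ ^ 2 := by
  have hα : 0 ≤ α := by simpa using hb ∅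
  have h2 := row_summable2 hb x
  have hS : 0 ≤ ∑' j, ‖b j‖ * ‖x j‖ ^ 2 := tsum_nonneg fun j => by positivity
  have key : ∑' j, ‖b j * x j‖ ≤ Real.sqrt (α * ∑' j, ‖b j‖ * ‖x j‖ ^ 2) := by
    refine (row_summable hb x).tsum_le_of_sum_le fun s => Real.le_sqrt_of_sq_le ?_
    refine le_trans (Finset.sum_sq_le_sum_mul_sum_of_sq_eq_mul s (f := fun j => ‖b j‖)
      (g := fun j => ‖b j‖ * ‖x j‖ ^ 2) (fun j _ => norm_nonneg _) (fun j _ => by positivity)
      (fun j _ => by rw [norm_mul]; ring)) ?_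
    exact mul_le_mul (hb s) (h2.sum_le_tsum s fun j _ => by positivity)
      (sum_nonneg fun j _ => by positivity) hα
  have := pow_le_pow_left₀ (norm_nonneg _)
    ((norm_tsum_le_tsum_norm (row_summable hb x)).trans key) 2
  rwa [Real.sq_sqrt (mul_nonneg hα hS)] at this

lemma sum_rows {a : ι → κ → ℂ} {α β : ℝ} (hr : ∀ i, ∀ s : Finset κ, ∑ j ∈ s, ‖a i j‖ ≤ α)
    (hc : ∀ j, ∀ s : Finset ι, ∑ i ∈ s, ‖a i j‖ ≤ β) (hα : 0 ≤ α) (x : lp (fun _ : κ => ℂ) 2)
    (s : Finset ι) : ∑ i ∈ s, ‖∑' j, a i j * x j‖ ^ 2 ≤ α * β * ‖x‖ ^ 2 := by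
  refine (sum_le_sum fun i _ => row_sq (hr i) x).trans ?_
  rw [← mul_sum, mul_assoc]
  refine mul_le_mul_of_nonneg_left ?_ hα
  rw [← Summable.tsum_finsetSum fun i _ => row_summable2 (hr i) x, ← tsum_sq, ← tsum_mul_left]
  refine Summable.tsum_le_tsum (fun j => ?_) (summable_sum fun i _ => row_summable2 (hr i) x)
    ((sq_summable x).mul_left β)
  rw [← sum_mul]
  exact mul_le_mul_of_nonneg_right (hc j s) (by positivity)

/-- Schur test with two constants. -/
theorem schur2 (a : ι → κ → ℂ) {α β C : ℝ} (hα : 0 ≤ α) (hC : 0 ≤ C) (h : α * β ≤ C ^ 2)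
    (hr : ∀ i, ∀ s : Finset κ, ∑ j ∈ s, ‖a i j‖ ≤ α)
    (hc : ∀ j, ∀ s : Finset ι, ∑ i ∈ s, ‖a i j‖ ≤ β) :
    ∃ T : lp (fun _ : κ => ℂ) 2 →L[ℂ] lp (fun _ : ι => ℂ) 2, ‖T‖ ≤ C ∧
      ∀ x i, HasSum (fun j => a i j * x j) (T x i) := by
  have bd : ∀ (x : lp (fun _ : κ => ℂ) 2) (s : Finset ι),
      ∑ i ∈ s, ‖∑' j, a i j * x j‖ ^ (2 : ENNReal).toReal ≤ (C * ‖x‖) ^ (2 : ENNReal).toReal := by
    intro x s
    have := (sum_rows hr hc hα x s).trans (mul_le_mul_of_nonneg_right h (by positivity))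
    simpa [mul_pow] using this
  have sm : ∀ (x : lp (fun _ : κ => ℂ) 2) i, Summable fun j => a i j * x j :=
    fun x i => (row_summable (hr i) x).of_norm
  let L : lp (fun _ : κ => ℂ) 2 →ₗ[ℂ] lp (fun _ : ι => ℂ) 2 :=
    { toFun := fun x => ⟨fun i => ∑' j, a i j * x j, memℓp_gen' (bd x)⟩
      map_add' := fun x y => by
        ext i
        simp only [lp.coeFn_add, Pi.add_apply, mul_add]
        exact (sm x i).tsum_add (sm y i)
      map_smul' := fun c x => by
        ext i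
        simp only [lp.coeFn_smul, Pi.smul_apply, smul_eq_mul, RingHom.id_apply]
        rw [← tsum_mul_left]
        exact tsum_congr fun j => by ring }
  have hL : ∀ x, ‖L x‖ ≤ C * ‖x‖ := fun x =>
    lp.norm_le_of_forall_sum_le (by norm_num) (by positivity) (bd x)
  exact ⟨L.mkContinuous C hL, L.mkContinuous_norm_le hC hL, fun x i => (sm x i).hasSum⟩

/-- Schur test. -/
theorem schur (a : ι → κ → ℂ) {C : ℝ} (hC : 0 ≤ C)
    (hr : ∀ i, ∀ s : Finset κ, ∑ j ∈ s, ‖a i j‖ ≤ C)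
    (hc : ∀ j, ∀ s : Finset ι, ∑ i ∈ s, ‖a i j‖ ≤ C) :
    ∃ T : lp (fun _ : κ => ℂ) 2 →L[ℂ] lp (fun _ : ι => ℂ) 2, ‖T‖ ≤ C ∧
      ∀ x i, HasSum (fun j => a i j * x j) (T x i) :=
  schur2 a hC hC (le_of_eq (sq C).symm) hr hc

/-- An operator with a given matrix obeys the Schur bound. -/
theorem norm_le_of_matrix (a : ι → κ → ℂ) {C : ℝ} (hC : 0 ≤ C)
    (hr : ∀ i, ∀ s : Finset κ, ∑ j ∈ s, ‖a i j‖ ≤ C)
    (hc : ∀ j, ∀ s : Finset ι, ∑ i ∈ s, ‖a i j‖ ≤ C)
    (T : lp (fun _ : κ => ℂ) 2 →L[ℂ] lp (fun _ : ι => ℂ) 2)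
    (hT : ∀ x i, HasSum (fun j => a i j * x j) (T x i)) : ‖T‖ ≤ C := by
  obtain ⟨S, hS, h⟩ := schur a hC hr hc
  have : T = S := by
    ext x i
    exact (hT x i).unique (h x i)
  rwa [this]

/-- The weights of the scale. -/
noncomputable def om (D : ℕ) (k : ℝ) (i : ℕ) : ℝ := ∏ i' ∈ Ioc D i, k * (i' : ℝ)

variable {D : ℕ} {k : ℝ}

lemma om_of_le {i : ℕ} (h : i ≤ D) : om D k i = 1 := by
  rw [om, Ioc_eq_empty (by omega), prod_empty]

lemma om_succ {i : ℕ} (h : D ≤ i) : om D k (i + 1) = om D k i * (k * ((i : ℝ) + 1)) := by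
  rw [om, om, prod_Ioc_succ_top h]
  push_cast
  rfl

lemma k_pos (h : 2 ≤ k * D) : 0 < k := by
  by_contra hk
  have := mul_nonpos_of_nonpos_of_nonneg (not_lt.1 hk) (Nat.cast_nonneg (α := ℝ) D)
  linarith

lemma two_le (h : 2 ≤ k * D) {i : ℕ} (hi : D ≤ i) : 2 ≤ k * ((i : ℝ) + 1) := by
  have : (D : ℝ) ≤ i + 1 := by exact_mod_cast hi.trans (Nat.le_succ i)
  exact h.trans (mul_le_mul_of_nonneg_left this (k_pos h).le)

lemma one_le_om (h : 2 ≤ k * D) (i : ℕ) : 1 ≤ om D k i := by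
  induction i with
  | zero => rw [om_of_le (Nat.zero_le D)]
  | succ i ih =>
    rcases le_or_gt D i with hi | hi
    · rw [om_succ hi]; nlinarith [two_le h hi]
    · rw [om_of_le hi]

lemma om_pos (h : 2 ≤ k * D) (i : ℕ) : 0 < om D k i := one_pos.trans_le (one_le_om h i)

/-- Above `D` the weights at least double at every step. -/
lemma om_double (h : 2 ≤ k * D) {j : ℕ} (hj : D ≤ j) (r : ℕ) :
    2 ^ r * om D k j ≤ om D k (j + r) := by
  induction r with
  | zero => simp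
  | succ r ih =>
    rw [← add_assoc, om_succ (hj.trans (Nat.le_add_right j r)), pow_succ]
    have h2 := two_le h (hj.trans (Nat.le_add_right j r))
    nlinarith [om_pos h (j + r), mul_le_mul_of_nonneg_left h2 (om_pos h (j + r)).le]

lemma om_mono (h : 2 ≤ k * D) {j i : ℕ} (hji : j ≤ i) : om D k j ≤ om D k i := by
  rcases le_or_gt D j with hj | hj
  · obtain ⟨r, rfl⟩ := Nat.exists_eq_add_of_le hji
    have := om_double h hj r
    nlinarith [om_pos h j, one_le_pow₀ (M₀ := ℝ) (a := 2) (n := r) one_le_two]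
  · rw [om_of_le hj.le]; exact one_le_om h i

/-- The gain of a factor `i` above `D`. -/
lemma om_gain (h : 2 ≤ k * D) {j : ℕ} (hj : D ≤ j) (r : ℕ) :
    ((j + r + 1 : ℕ) : ℝ) * (om D k j / om D k (j + r + 1)) ≤ D / 2 * (1 / 2) ^ r := by
  have h1 := om_double h hj r
  have h2 := om_pos h j
  have h3 := om_pos h (j + r)
  have hk := k_pos h
  rw [om_succ (hj.trans (Nat.le_add_right j r)), one_div, inv_pow]
  push_cast
  have h4 : (0 : ℝ) < j + r + 1 := by positivity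
  have h5 : (0 : ℝ) < 2 ^ r := by positivity
  have e : (j + r + 1 : ℝ) * (om D k j / (om D k (j + r) * (k * (j + r + 1))))
      = om D k j / (om D k (j + r) * k) := by field_simp
  rw [e, ← div_eq_mul_inv, div_le_div_iff₀ (by positivity) h5]
  nlinarith [mul_le_mul_of_nonneg_left h h3.le]

/-- The modulus of the matrix of the derivative in the basis `e_i / om_i` (row `j`, column `i`),
without the parity restriction. -/
noncomputable def dm (D : ℕ) (k : ℝ) (j i : ℕ) : ℝ :=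
  if j < i then 2 * Real.sqrt ((2 * i + 1) * (2 * j + 1)) * (om D k j / om D k i) else 0

lemma dm_nonneg (h : 2 ≤ k * D) (j i : ℕ) : 0 ≤ dm D k j i := by
  unfold dm
  have := om_pos h j
  have := om_pos h i
  split_ifs
  · positivity
  · exact le_rfl

lemma sqrt_le {j i : ℕ} (hji : j < i) : Real.sqrt ((2 * i + 1) * (2 * j + 1)) ≤ 2 * i := by
  have : (j : ℝ) + 1 ≤ i := by exact_mod_cast hji
  have h0 : (0 : ℝ) ≤ j := Nat.cast_nonneg j
  refine Real.sqrt_le_iff.2 ⟨by positivity, ?_⟩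
  nlinarith

lemma dm_low (h : 2 ≤ k * D) {j i : ℕ} (hi : i ≤ D) : dm D k j i ≤ 4 * D := by
  unfold dm
  split_ifs with hji
  · rw [om_of_le hi, om_of_le (hji.le.trans hi), div_one, mul_one]
    have : (i : ℝ) ≤ D := by exact_mod_cast hi
    linarith [sqrt_le hji]
  · positivity

lemma dm_high (h : 2 ≤ k * D) {j i : ℕ} (hi : D < i) (hji : j < i) :
    dm D k j i ≤ 2 * D * (1 / 2) ^ (i - max j D - 1) := by
  unfold dm
  rw [if_pos hji]
  obtain ⟨r, rfl⟩ : ∃ r, i = max j D + r + 1 := ⟨i - max j D - 1, by omega⟩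
  have e : om D k j = om D k (max j D) := by
    rcases le_total j D with h' | h'
    · rw [max_eq_right h', om_of_le h', om_of_le le_rfl]
    · rw [max_eq_left h']
  have h1 := om_gain h (le_max_right j D) r
  have h2 := sqrt_le hji
  have h3 : 0 ≤ om D k (max j D) / om D k (max j D + r + 1) :=
    (div_pos (om_pos h _) (om_pos h _)).le
  rw [e, show max j D + r + 1 - max j D - 1 = r by omega]
  nlinarith [mul_le_mul_of_nonneg_right h2 h3]

lemma geo (s : Finset ℕ) (f : ℕ → ℕ) (hf : Set.InjOn f s) : ∑ i ∈ s, (1 / 2 : ℝ) ^ f i ≤ 2 := by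
  rw [← sum_image (f := fun r => (1 / 2 : ℝ) ^ r) hf]
  exact (summable_geometric_two.sum_le_tsum _ fun i _ => by positivity).trans
    tsum_geometric_two.le

lemma card_le (s : Finset ℕ) (n : ℕ) (p : ℕ → Prop) [DecidablePred p] (hp : ∀ i, p i → i < n) :
    ((s.filter p).card : ℝ) ≤ n := by
  have : s.filter p ⊆ range n := fun i hi => mem_range.2 (hp i (mem_filter.1 hi).2)
  exact_mod_cast (card_le_card this).trans (card_range n).le

/-- Row sums of the derivative. -/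
theorem dm_row (h : 2 ≤ k * D) (j : ℕ) (s : Finset ℕ) :
    ∑ i ∈ s, dm D k j i ≤ 20 * ((D : ℝ) + 1) ^ 2 := by
  have hD : (0 : ℝ) ≤ D := Nat.cast_nonneg D
  rw [← sum_filter_add_sum_filter_not s (· ≤ D)]
  have a1 : ∑ i ∈ s.filter (· ≤ D), dm D k j i ≤ ((D + 1 : ℕ) : ℝ) * (4 * D) := by
    refine (sum_le_card_nsmul _ _ _ fun i hi => dm_low h (mem_filter.1 hi).2).trans ?_
    rw [nsmul_eq_mul]
    exact mul_le_mul_of_nonneg_right (card_le s _ _ fun i hi => Nat.lt_succ_of_le hi)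
      (by positivity)
  have a2 : ∑ i ∈ s.filter (fun i => ¬ i ≤ D), dm D k j i ≤ 2 * D * 2 := by
    rw [← sum_filter_of_ne (p := fun i => j < i) (fun i _ hne => by
      by_contra hc; exact hne (if_neg hc))]
    refine (sum_le_sum (g := fun i => 2 * (D : ℝ) * (1 / 2) ^ (i - max j D - 1))
      fun i hi => ?_).trans ?_
    · simp only [mem_filter, not_le] at hi
      exact dm_high h hi.1.2 hi.2
    · rw [← mul_sum]
      refine mul_le_mul_of_nonneg_left (geo _ _ fun a ha b hb e => ?_) (by positivity)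
      simp only [coe_filter, mem_filter, not_le, Set.mem_setOf_eq] at ha hb e
      omega
  push_cast at a1
  nlinarith

/-- Column sums of the derivative. -/
theorem dm_col (h : 2 ≤ k * D) (i : ℕ) (s : Finset ℕ) :
    ∑ j ∈ s, dm D k j i ≤ 20 * ((D : ℝ) + 1) ^ 2 := by
  have hD : (0 : ℝ) ≤ D := Nat.cast_nonneg D
  have b : ∀ j, j < D → dm D k j i ≤ 4 * D := by
    intro j hj
    rcases le_or_gt i D with hi | hi
    · exact dm_low h hi
    · have := dm_high h hi (hj.trans hi)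
      have h2 : (1 / 2 : ℝ) ^ (i - max j D - 1) ≤ 1 := pow_le_one₀ (by norm_num) (by norm_num)
      nlinarith
  rw [← sum_filter_add_sum_filter_not s (· < D)]
  have a1 : ∑ j ∈ s.filter (· < D), dm D k j i ≤ (D : ℝ) * (4 * D) := by
    refine (sum_le_card_nsmul _ _ _ fun j hj => b j (mem_filter.1 hj).2).trans ?_
    rw [nsmul_eq_mul]
    exact mul_le_mul_of_nonneg_right (card_le s _ _ fun j hj => hj) (by positivity)
  have a2 : ∑ j ∈ s.filter (fun j => ¬ j < D), dm D k j i ≤ 2 * D * 2 := by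
    rw [← sum_filter_of_ne (p := fun j => j < i) (fun j _ hne => by
      by_contra hc; exact hne (if_neg hc))]
    refine (sum_le_sum (g := fun j => 2 * (D : ℝ) * (1 / 2) ^ (i - j - 1))
      fun j hj => ?_).trans ?_
    · simp only [mem_filter, not_lt] at hj
      have := dm_high h (hj.1.2.trans_lt hj.2) hj.2
      rwa [max_eq_left hj.1.2] at this
    · rw [← mul_sum]
      refine mul_le_mul_of_nonneg_left (geo _ _ fun a ha b hb e => ?_) (by positivity)
      simp only [coe_filter, mem_filter, not_lt, Set.mem_setOf_eq] at ha hb e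
      omega
  nlinarith

/-- The square of the norm of the evaluation at zero. -/
theorem ev_sum (h : 2 ≤ k * D) (s : Finset ℕ) :
    ∑ i ∈ s, (2 * (i : ℝ) + 1) / om D k i ^ 2 ≤ (2 * ((D : ℝ) + 1)) ^ 2 := by
  have hD : (0 : ℝ) ≤ D := Nat.cast_nonneg D
  rw [← sum_filter_add_sum_filter_not s (· ≤ D)]
  have a1 : ∑ i ∈ s.filter (· ≤ D), (2 * (i : ℝ) + 1) / om D k i ^ 2
      ≤ ((D + 1 : ℕ) : ℝ) * (2 * D + 1) := by
    refine (sum_le_card_nsmul _ _ (2 * (D : ℝ) + 1) fun i hi => ?_).trans ?_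
    · have hi := (mem_filter.1 hi).2
      have : (i : ℝ) ≤ D := by exact_mod_cast hi
      rw [om_of_le hi]
      linarith
    · rw [nsmul_eq_mul]
      exact mul_le_mul_of_nonneg_right (card_le s _ _ fun i hi => Nat.lt_succ_of_le hi)
        (by positivity)
  have a2 : ∑ i ∈ s.filter (fun i => ¬ i ≤ D), (2 * (i : ℝ) + 1) / om D k i ^ 2
      ≤ 3 / 2 * (D : ℝ) * 2 := by
    refine (sum_le_sum (g := fun i => 3 / 2 * (D : ℝ) * (1 / 2) ^ (i - D - 1))
      fun i hi => ?_).trans ?_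
    · simp only [mem_filter, not_le] at hi
      obtain ⟨r, rfl⟩ : ∃ r, i = D + r + 1 := ⟨i - D - 1, by omega⟩
      have h1 := om_gain h (le_refl D) r
      have h2 := one_le_om h (D + r + 1)
      rw [om_of_le le_rfl] at h1
      rw [show D + r + 1 - D - 1 = r by omega]
      have h3 : (1 : ℝ) ≤ (D + r + 1 : ℕ) := by exact_mod_cast Nat.succ_pos _
      generalize ((D + r + 1 : ℕ) : ℝ) = x at *
      generalize om D k (D + r + 1) = o at *
      have h4 : (2 * x + 1) / o ^ 2 ≤ 3 * (x * (1 / o)) := by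
        rw [div_le_iff₀ (by positivity)]
        have : 3 * (x * (1 / o)) * o ^ 2 = 3 * x * o := by field_simp
        rw [this]
        nlinarith
      linarith
    · rw [← mul_sum]
      refine mul_le_mul_of_nonneg_left (geo _ _ fun a ha b hb e => ?_) (by positivity)
      simp only [coe_filter, not_le, Set.mem_setOf_eq] at ha hb e
      omega
  push_cast at a1
  nlinarith

end Pool.Agent.P.MP_f981b0_an.IS6
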